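import Mathlib
import Pool.Agent.H51.BJ.FIN

/-!
# `f ↦ P*(D)(P f)` is a bijection of the space of entire functions

For every `n ≥ 1` and every nonzero polynomial `P` in `n` complex variables the map `T_P f = P*(D)(P f)` is a bijection of
the space of entire functions on `ℂⁿ` onto itself, its inverse is continuous for locally uniform convergence, and
every entire function is in exactly one way `P q + r` with `q`, `r` entire and `P*(D) r = 0`.
-/

set_option autoImplicit false

open Pool.Agent.H60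

noncomputable section

namespace Pool.Agent.Results.MP_fbd3e7_an.FischerOperatorBijective

/-- The set of entire (everywhere complex differentiable) functions on `ℂⁿ`. -/
def Entire (n : ℕ) : Set ((Fin n → ℂ) → ℂ) := {f | Differentiable ℂ f}

/-- The partial derivative `D_i f = ∂f/∂z_i`: `(D_i f)(z)` is the derivative at `t = z_i` of the function
`t ↦ f(z_1, ..., z_{i-1}, t, z_{i+1}, ..., z_n)` of one complex variable. -/
def partialD {n : ℕ} (i : Fin n) (f : (Fin n → ℂ) → ℂ) : (Fin n → ℂ) → ℂ :=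
  fun z => deriv (fun t : ℂ => f (Function.update z i t)) (z i)

/-- The differential operator `D^α = D_1^{α_1} ⋯ D_n^{α_n}`. -/
def monomialD {n : ℕ} (α : Fin n →₀ ℕ) (f : (Fin n → ℂ) → ℂ) : (Fin n → ℂ) → ℂ :=
  (List.finRange n).foldr (fun i g => (partialD i)^[α i] g) f

/-- The constant coefficient operator `Q(D) = ∑_α q_α D^α` for a polynomial `Q = ∑_α q_α z^α`. -/
def diffOp {n : ℕ} (Q : MvPolynomial (Fin n) ℂ) (f : (Fin n → ℂ) → ℂ) : (Fin n → ℂ) → ℂ :=
  fun z => ∑ α ∈ Q.support, Q.coeff α * monomialD α f z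

/-- The polynomial `P*`, whose coefficients are the complex conjugates of those of `P`. -/
def conjPoly {n : ℕ} (P : MvPolynomial (Fin n) ℂ) : MvPolynomial (Fin n) ℂ :=
  MvPolynomial.map (starRingEnd ℂ) P

/-- The map `T_P f = P*(D)(P f)`. -/
def T {n : ℕ} (P : MvPolynomial (Fin n) ℂ) (f : (Fin n → ℂ) → ℂ) : (Fin n → ℂ) → ℂ :=
  diffOp (conjPoly P) (fun z => MvPolynomial.eval z P * f z)

private theorem hasDerivAt_slice {n : ℕ} (i : Fin n) {f : (Fin n → ℂ) → ℂ}
    (hf : Differentiable ℂ f) (z : Fin n → ℂ) :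
    HasDerivAt (fun t : ℂ => f (Function.update z i t)) (pd i f z) (z i) := by
  have h1 : HasDerivAt (fun t : ℂ => Function.update z i t) (Pi.single i (1 : ℂ)) (z i) :=
    hasDerivAt_update z i (z i)
  have h2 : HasFDerivAt f (fderiv ℂ f z) (Function.update z i (z i)) := by
    rw [Function.update_eq_self]
    exact (hf z).hasFDerivAt
  exact h2.comp_hasDerivAt (z i) h1

private theorem partialD_eq {n : ℕ} (i : Fin n) {f : (Fin n → ℂ) → ℂ}
    (hf : Differentiable ℂ f) : partialD i f = pd i f := by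
  funext z
  exact (hasDerivAt_slice i hf z).deriv

private theorem iter_eq {n : ℕ} (i : Fin n) (k : ℕ) {f : (Fin n → ℂ) → ℂ}
    (hf : Differentiable ℂ f) :
    (partialD i)^[k] f = (pd i)^[k] f ∧ Differentiable ℂ ((pd i)^[k] f) := by
  induction k with
  | zero => exact ⟨rfl, hf⟩
  | succ k ih =>
    rw [Function.iterate_succ_apply', Function.iterate_succ_apply', ih.1]
    exact ⟨partialD_eq i ih.2, differentiable_pd i ih.2⟩

private theorem list_eq {n : ℕ} (L : List (Fin n)) (α : Fin n →₀ ℕ) {f : (Fin n → ℂ) → ℂ}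
    (hf : Differentiable ℂ f) :
    L.foldr (fun i g => (partialD i)^[α i] g) f = L.foldr (fun i g => (pd i)^[α i] g) f ∧
      Differentiable ℂ (L.foldr (fun i g => (pd i)^[α i] g) f) := by
  induction L with
  | nil => exact ⟨rfl, hf⟩
  | cons i L ih =>
    rw [List.foldr_cons, List.foldr_cons, ih.1]
    exact iter_eq i (α i) ih.2

private theorem monomialD_eq {n : ℕ} (α : Fin n →₀ ℕ) {f : (Fin n → ℂ) → ℂ}
    (hf : Differentiable ℂ f) : monomialD α f = pdL (Lst α) f := by
  have h := (list_eq (List.finRange n) α hf).1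
  rw [pdL_Lst]
  exact h

private theorem diffOp_eq {n : ℕ} (Q : MvPolynomial (Fin n) ℂ) {f : (Fin n → ℂ) → ℂ}
    (hf : Differentiable ℂ f) :
    diffOp Q f = fun z => ∑ α ∈ Q.support, Q.coeff α * pdL (Lst α) f z := by
  funext z
  unfold diffOp
  apply Finset.sum_congr rfl
  intro α _
  rw [monomialD_eq α hf]

private theorem diffOp_entire {n : ℕ} (Q : MvPolynomial (Fin n) ℂ) {f : (Fin n → ℂ) → ℂ}
    (hf : Differentiable ℂ f) : Differentiable ℂ (diffOp Q f) := by
  rw [diffOp_eq Q hf]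
  apply Differentiable.fun_sum
  intro m _
  exact (differentiable_pdL _ hf).const_mul _

private theorem diffOp_sub {n : ℕ} (Q : MvPolynomial (Fin n) ℂ) {f g : (Fin n → ℂ) → ℂ}
    (hf : Differentiable ℂ f) (hg : Differentiable ℂ g) :
    diffOp Q (fun z => f z - g z) = fun z => diffOp Q f z - diffOp Q g z := by
  have hfg : Differentiable ℂ (fun z => f z - g z) := hf.sub hg
  rw [diffOp_eq Q hf, diffOp_eq Q hg, diffOp_eq Q hfg]
  funext z
  rw [← Finset.sum_sub_distrib]
  apply Finset.sum_congr rfl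
  intro m _
  rw [pdL_sub _ hf hg]
  ring

private theorem T_eq {n : ℕ} (P : MvPolynomial (Fin n) ℂ) {f : (Fin n → ℂ) → ℂ}
    (hf : Differentiable ℂ f) : T P f = Tf P f := by
  have hPf : Differentiable ℂ (fun z => MvPolynomial.eval z P * f z) := differentiable_Pf P hf
  unfold T
  rw [diffOp_eq (conjPoly P) hPf]
  funext z
  unfold Tf conjPoly
  rw [MvPolynomial.support_map_of_injective _ (starRingEnd ℂ).injective]
  apply Finset.sum_congr rfl
  intro m _
  rw [MvPolynomial.coeff_map]
  rfl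

private theorem bijT {n : ℕ} (P : MvPolynomial (Fin n) ℂ) (hP : P ≠ 0) :
    Set.BijOn (T P) (Entire n) (Entire n) := by
  obtain ⟨hmap, hinj, hsurj⟩ := bij_of_goodEst hP (Pool.Agent.H51.BJ.good_all n P hP)
  refine ⟨fun f hf => ?_, fun f hf g hg hfg => ?_, fun g hg => ?_⟩
  · rw [T_eq P hf]
    exact hmap hf
  · apply hinj hf hg
    rw [← T_eq P hf, ← T_eq P hg]
    exact hfg
  · obtain ⟨f, hf, hfg⟩ := hsurj hg
    refine ⟨f, hf, ?_⟩
    rw [T_eq P hf]
    exact hfg

private theorem fischer {n : ℕ} (P : MvPolynomial (Fin n) ℂ) (hP : P ≠ 0)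
    (g : (Fin n → ℂ) → ℂ) (hg : g ∈ Entire n) :
    ∃! p : ((Fin n → ℂ) → ℂ) × ((Fin n → ℂ) → ℂ), p.1 ∈ Entire n ∧ p.2 ∈ Entire n ∧
      (∀ z, g z = MvPolynomial.eval z P * p.1 z + p.2 z) ∧
      ∀ z, diffOp (conjPoly P) p.2 z = 0 := by
  have hb := bijT P hP
  have hg' : Differentiable ℂ g := hg
  obtain ⟨q, hq, hqg⟩ := hb.surjOn (show diffOp (conjPoly P) g ∈ Entire n from
    diffOp_entire _ hg')
  have hq' : Differentiable ℂ q := hq
  have hPq : Differentiable ℂ (fun z => MvPolynomial.eval z P * q z) := differentiable_Pf P hq'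
  have hr : Differentiable ℂ (fun z => g z - MvPolynomial.eval z P * q z) := hg'.sub hPq
  refine ⟨(q, fun z => g z - MvPolynomial.eval z P * q z), ⟨hq, hr, fun z => by ring, ?_⟩, ?_⟩
  · intro z
    rw [diffOp_sub (conjPoly P) hg' hPq]
    have h1 : T P q = diffOp (conjPoly P) (fun z => MvPolynomial.eval z P * q z) := rfl
    rw [← h1, hqg]
    exact sub_self _
  · rintro ⟨q', r'⟩ ⟨h1, h2, h3, h4⟩
    have h2' : Differentiable ℂ r' := h2
    have h1' : Differentiable ℂ q' := h1
    have h3' : (fun z => MvPolynomial.eval z P * q' z) = fun z => g z - r' z := by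
      funext z
      have h5 := h3 z
      simp only at h5
      rw [h5]
      ring
    have h6 : T P q' = T P q := by
      have h7 : T P q' = diffOp (conjPoly P) (fun z => MvPolynomial.eval z P * q' z) := rfl
      rw [h7, h3', diffOp_sub (conjPoly P) hg' h2', hqg]
      funext z
      have h8 : diffOp (conjPoly P) r' z = 0 := h4 z
      rw [h8, sub_zero]
    have h9 : q' = q := hb.injOn h1 hq h6
    rw [Prod.mk.injEq]
    refine ⟨h9, ?_⟩
    funext z
    have h5 := h3 z
    simp only at h5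
    rw [h5, h9]
    ring

/-- Let `n ≥ 1` and let `P` be a nonzero polynomial in `n` complex variables. Then `T_P f = P*(D)(P f)` is a bijection
of the space of entire functions on `ℂⁿ` onto itself. Every entire function is in exactly one way `P q + r` with
`q`, `r` entire and `P*(D) r = 0`. For every compact set `K` there are a compact set `K'` and `C > 0` such that
`|T_P f| ≤ s` on `K'` implies `|f| ≤ C s` on `K` for all entire `f` and `s ≥ 0`, so the inverse of `T_P` is continuous for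
locally uniform convergence. -/
theorem result : ∀ n : ℕ, 1 ≤ n → ∀ P : MvPolynomial (Fin n) ℂ, P ≠ 0 →
    Set.BijOn (T P) (Entire n) (Entire n) ∧
    (∀ g ∈ Entire n, ∃! p : ((Fin n → ℂ) → ℂ) × ((Fin n → ℂ) → ℂ),
      p.1 ∈ Entire n ∧ p.2 ∈ Entire n ∧ (∀ z, g z = MvPolynomial.eval z P * p.1 z + p.2 z) ∧
        ∀ z, diffOp (conjPoly P) p.2 z = 0) ∧
    ∀ K : Set (Fin n → ℂ), IsCompact K → ∃ (K' : Set (Fin n → ℂ)) (C : ℝ), IsCompact K' ∧
      0 < C ∧ ∀ f ∈ Entire n, ∀ s : ℝ, 0 ≤ s → (∀ z ∈ K', ‖T P f z‖ ≤ s) →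
        ∀ z ∈ K, ‖f z‖ ≤ C * s := by
  intro n _ P hP
  refine ⟨bijT P hP, fischer P hP, fun K hK => ?_⟩
  obtain ⟨ρ, hρ⟩ := hK.isBounded.subset_closedBall (0 : Fin n → ℂ)
  obtain ⟨C, ρ', hC, hest⟩ := est_entire (Pool.Agent.H51.BJ.good_all n P hP) ρ
  refine ⟨Metric.closedBall 0 ρ', C, isCompact_closedBall 0 ρ', hC, fun f hf s hs h z hz => ?_⟩
  refine hest f hf s hs (fun w hw => ?_) z (hρ hz)
  rw [← T_eq P hf]
  exact h w hw

end Pool.Agent.Results.MP_fbd3e7_an.FischerOperatorBijective
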